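import Pool.Agent.H34.TAM.Stmts

/-!
Row SUB of the board tam: chain rule for the substitution `i ↦ i + p`.
-/

set_option autoImplicit false

noncomputable section

namespace Pool.TAM

open Pool.CGR Pool.CGS Pool.CGS.DVCH

namespace SUBH

variable {m : ℕ} {B M : Type} [Ring B] [Algebra ℂ B] [AddCommGroup M] [Module ℂ M]

/-- Linear extension. -/
def lc (F : List (Fin m) → M) : (List (Fin m) →₀ ℂ) →ₗ[ℂ] M := Finsupp.linearCombination ℂ F

theorem lc_apply (F : List (Fin m) → M) (P : List (Fin m) →₀ ℂ) :
    lc F P = P.sum fun W r => r • F W := Finsupp.linearCombination_apply ℂ P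

theorem lc_single_nil (F : List (Fin m) → M) (i : Fin m) (p : List (Fin m) →₀ ℂ) :
    lc F (sb i p []) = F [] := by
  rw [sb, lc, Finsupp.linearCombination_single, one_smul]

theorem lc_sb_cons (F : List (Fin m) → M) (i : Fin m) (p : List (Fin m) →₀ ℂ) (j : Fin m)
    (w : List (Fin m)) :
    lc F (sb i p (j :: w)) = lc (fun W => F (j :: W)) (sb i p w) +
      if j = i then p.sum fun v r => r • lc (fun W => F (v ++ W)) (sb i p w) else 0 := by
  unfold lc
  rw [sb, map_add, Finsupp.linearCombination_mapDomain]
  congr 1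
  split_ifs
  · rw [map_finsuppSum]
    refine Finsupp.sum_congr fun v _ => ?_
    rw [map_smul, Finsupp.linearCombination_mapDomain]
    rfl
  · rw [map_zero]

theorem lc_mul_left (b : B) (F : List (Fin m) → B) (P : List (Fin m) →₀ ℂ) :
    lc (fun W => b * F W) P = b * lc F P := by
  rw [lc_apply, lc_apply, Finsupp.mul_sum]
  exact Finsupp.sum_congr fun v _ => by rw [mul_smul_comm]

theorem lc_add (F G : List (Fin m) → M) (P : List (Fin m) →₀ ℂ) :
    lc (fun W => F W + G W) P = lc F P + lc G P := by
  rw [lc_apply, lc_apply, lc_apply, ← Finsupp.sum_add]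
  exact Finsupp.sum_congr fun v _ => by rw [smul_add]

theorem sum_mul_right (p : List (Fin m) →₀ ℂ) (F : List (Fin m) → B) (b : B) :
    (p.sum fun v r => r • (F v * b)) = (p.sum fun v r => r • F v) * b := by
  rw [Finsupp.sum_mul]
  exact Finsupp.sum_congr fun v _ => by rw [smul_mul_assoc]

theorem el_self (x : Fin m → B) (i : Fin m) (p : List (Fin m) →₀ ℂ) :
    el x i p i = x i + pe x p := by
  unfold el
  rw [Function.update_self]

theorem el_ne (x : Fin m → B) (i : Fin m) (p : List (Fin m) →₀ ℂ) (j : Fin m) (h : j ≠ i) :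
    el x i p j = x j := by
  unfold el
  rw [Function.update_of_ne h]

theorem lc_ev (x : Fin m → B) (i : Fin m) (p : List (Fin m) →₀ ℂ) (w : List (Fin m)) :
    lc (ev x) (sb i p w) = ev (el x i p) w := by
  induction w with
  | nil => rw [lc_single_nil, ev_nil, ev_nil]
  | cons j w ih =>
    rw [lc_sb_cons, ev_cons, ← ih]
    have h1 : lc (fun W => ev x (j :: W)) (sb i p w) = x j * lc (ev x) (sb i p w) := by
      rw [← lc_mul_left]
      simp only [ev_cons]
    have h2 : ∀ v, lc (fun W => ev x (v ++ W)) (sb i p w) = ev x v * lc (ev x) (sb i p w) := by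
      intro v
      rw [← lc_mul_left]
      simp only [ev_append]
    rw [h1]
    simp only [h2]
    rw [sum_mul_right]
    by_cases hj : j = i
    · subst hj
      rw [if_pos rfl, el_self, add_mul]
      rfl
    · rw [if_neg hj, el_ne x i p j hj, add_zero]

theorem lc_dv (x : Fin m → B) (i : Fin m) (p : List (Fin m) →₀ ℂ) (k : Fin m) (a : B) (j : Fin m)
    (w : List (Fin m)) :
    lc (dv x k a) (sb i p (j :: w)) = (if j = k then a * ev (el x i p) w else 0) +
      el x i p j * lc (dv x k a) (sb i p w) +
      if j = i then (p.sum fun v r => r • dv x k a v) * ev (el x i p) w else 0 := by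
  rw [lc_sb_cons, ← lc_ev]
  have h1 : lc (fun W => dv x k a (j :: W)) (sb i p w) =
      (if j = k then a * lc (ev x) (sb i p w) else 0) + x j * lc (dv x k a) (sb i p w) := by
    have h0 : (fun W => dv x k a (j :: W)) =
        fun W => (if j = k then a * ev x W else 0) + x j * dv x k a W := by
      funext W
      rw [dv_cons]
    rw [h0, lc_add, lc_mul_left]
    congr 1
    split_ifs
    · rw [lc_mul_left]
    · rw [lc_apply]
      simp
  have h2 : ∀ v, lc (fun W => dv x k a (v ++ W)) (sb i p w) =
      dv x k a v * lc (ev x) (sb i p w) + ev x v * lc (dv x k a) (sb i p w) := by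
    intro v
    have h0 : (fun W => dv x k a (v ++ W)) =
        fun W => dv x k a v * ev x W + ev x v * dv x k a W := by
      funext W
      rw [dv_append]
    rw [h0, lc_add, lc_mul_left, lc_mul_left]
  rw [h1]
  simp only [h2, smul_add]
  rw [Finsupp.sum_add, sum_mul_right, sum_mul_right]
  by_cases hj : j = i
  · subst hj
    rw [if_pos rfl, if_pos rfl, el_self]
    unfold pe
    noncomm_ring
  · rw [if_neg hj, if_neg hj, el_ne x i p j hj]

omit [Algebra ℂ B] in
theorem dv_zero (x : Fin m → B) (k : Fin m) (a : B) (v : List (Fin m)) (h : ∀ j ∈ v, j ≠ k) :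
    dv x k a v = 0 := by
  induction v with
  | nil => exact dv_nil x k a
  | cons j v ih =>
    rw [dv_cons, if_neg (h j (by simp)), ih fun l hl => h l (List.mem_cons_of_mem _ hl), mul_zero,
      add_zero]

end SUBH

open SUBH in
theorem sub_thm : SUBStmt := by
  intro m B _ _ x i p hp w
  refine ⟨?_, ?_, ?_, ?_⟩
  · rw [← lc_ev]
    rfl
  · intro a
    have h0 : (p.sum fun v r => r • dv x i a v) = 0 := by
      refine Finset.sum_eq_zero fun v hv => ?_
      change p v • dv x i a v = 0
      rw [dv_zero x i a v fun j hj => by simpa using hp v hv j hj, smul_zero]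
    rw [← lc_apply]
    induction w with
    | nil => rw [lc_single_nil, dv_nil, dv_nil]
    | cons j w ih =>
      rw [lc_dv, h0, ih, dv_cons, zero_mul]
      simp
  · intro k a hk
    rw [← lc_apply]
    induction w with
    | nil => rw [lc_single_nil, dv_nil, dv_nil, dv_nil, add_zero]
    | cons j w ih =>
      rw [lc_dv, ih, dv_cons, dv_cons]
      noncomm_ring
  · intro v hv
    have he : ∀ v : List (Fin m), (∀ j ∈ v, j ≠ i) → ev (el x i p) v = ev x v := by
      intro v hv
      induction v with
      | nil => rfl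
      | cons j v ih =>
        rw [ev_cons, ev_cons, el_ne x i p j (hv j (by simp)),
          ih fun l hl => hv l (List.mem_cons_of_mem _ hl)]
    refine ⟨he v hv, fun k a => ?_⟩
    induction v with
    | nil => rw [dv_nil, dv_nil]
    | cons j v ih =>
      rw [dv_cons, dv_cons, el_ne x i p j (hv j (by simp)),
        ih fun l hl => hv l (List.mem_cons_of_mem _ hl),
        he v fun l hl => hv l (List.mem_cons_of_mem _ hl)]

end Pool.TAM
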